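import Pool.Agent.Helper20.KP.StH

/-!
# Project KP (MP_26be5b_ag), module HCN: complements of complex hypersurfaces are connected
-/

set_option autoImplicit false

namespace Pool.Agent.Helper80.KP

open Pool.Agent.Helper52.KP Pool.Agent.Helper20.KP Filter Topology

theorem hHCN : StHCN := by
  intro m P _
  apply isPreconnected_of_forall_pair
  intro y hy y' hy'
  set q : Polynomial ℂ := MvPolynomial.eval₂ Polynomial.C
    (fun i => Polynomial.C (y i) + Polynomial.X * Polynomial.C (y' i - y i)) P with hq
  have hev : ∀ t : ℂ, Polynomial.eval t q = ev P (fun i => y i + t * (y' i - y i)) := by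
    intro t
    have h := MvPolynomial.eval₂_comp_left (Polynomial.evalRingHom t) Polynomial.C
      (fun i => Polynomial.C (y i) + Polynomial.X * Polynomial.C (y' i - y i)) P
    rw [Polynomial.coe_evalRingHom] at h
    rw [hq, h]
    have h1 : (Polynomial.evalRingHom t).comp Polynomial.C = RingHom.id ℂ := by
      ext x
      simp
    rw [h1]
    have h2 : (Polynomial.eval t ∘ fun i => Polynomial.C (y i) +
        Polynomial.X * Polynomial.C (y' i - y i)) = fun i => y i + t * (y' i - y i) := by
      funext i
      simp
    rw [h2]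
    rfl
  have hq0 : q ≠ 0 := by
    intro h0
    have h := hev 0
    rw [h0, Polynomial.eval_zero] at h
    apply hy
    rw [h]
    congr 1
    simp
  have hfin : {t : ℂ | Polynomial.eval t q = 0}.Finite := by
    have h := (q.rootSet_finite ℂ)
    refine h.subset ?_
    intro t ht
    rw [Polynomial.mem_rootSet]
    refine ⟨hq0, ?_⟩
    simpa using ht
  have hpc : IsPathConnected {t : ℂ | Polynomial.eval t q = 0}ᶜ :=
    hfin.countable.isPathConnected_compl_of_one_lt_rank (by
      rw [Complex.rank_real_complex]; exact Nat.one_lt_ofNat)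
  refine ⟨(fun (t : ℂ) (i : Fin m) => y i + t * (y' i - y i)) '' {t : ℂ | Polynomial.eval t q = 0}ᶜ,
    ?_, ⟨0, ?_, ?_⟩, ⟨1, ?_, ?_⟩, ?_⟩
  · rintro _ ⟨t, ht, rfl⟩
    intro h
    exact ht ((hev t).trans h)
  · intro h
    have h' : Polynomial.eval 0 q = 0 := h
    rw [hev] at h'
    apply hy
    simpa using h'
  · simp
  · intro h
    have h' : Polynomial.eval 1 q = 0 := h
    rw [hev] at h'
    apply hy'
    simpa using h'
  · simp
  · apply hpc.isConnected.isPreconnected.image
    apply Continuous.continuousOn
    fun_prop

end Pool.Agent.Helper80.KP
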