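import Pool.Agent.Helper52.KP.StW

/-!
# Project KP (MP_26be5b_ag), module WPS: bounded plurisubharmonic functions extend weakly across
hypersurfaces
-/

set_option autoImplicit false

namespace Pool.Agent.Helper80.KP

open Pool.Agent.Helper52.KP MeasureTheory Filter
open scoped ContDiff ComplexOrder Topology

section Linear

variable {m : ℕ}

/-- directional derivative of a real function -/
noncomputable def dd (v : Fin m → ℂ) (f : (Fin m → ℂ) → ℝ) (z : Fin m → ℂ) : ℝ := fderiv ℝ f z v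

/-- Laplacian in the complex direction `ξ` -/
noncomputable def lp (ξ : Fin m → ℂ) (f : (Fin m → ℂ) → ℝ) (z : Fin m → ℂ) : ℝ :=
  dd ξ (dd ξ f) z + dd (Complex.I • ξ) (dd (Complex.I • ξ) f) z

lemma lin_exp (L : (Fin m → ℂ) →L[ℝ] ℂ) (ξ : Fin m → ℂ) :
    L ξ = ∑ j, (((ξ j).re : ℂ) * L (Pi.single j 1) + ((ξ j).im : ℂ) * L (Pi.single j Complex.I)) := by
  have h1 : ξ = ∑ j, ((ξ j).re • (Pi.single j (1 : ℂ) : Fin m → ℂ)
      + (ξ j).im • (Pi.single j Complex.I : Fin m → ℂ)) := by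
    conv_lhs => rw [← Finset.univ_sum_single ξ]
    apply Finset.sum_congr rfl
    intro j _
    rw [← Pi.single_smul, ← Pi.single_smul, ← Pi.single_add]
    congr 1
    simp only [Complex.real_smul, mul_one]
    exact (Complex.re_add_im (ξ j)).symm
  conv_lhs => rw [h1]
  rw [map_sum]
  apply Finset.sum_congr rfl
  intro j _
  rw [map_add, map_smul, map_smul, Complex.real_smul, Complex.real_smul]

lemma lin_a (L : (Fin m → ℂ) →L[ℝ] ℂ) (ξ : Fin m → ℂ) :
    ∑ j, ξ j * (L (Pi.single j 1) - Complex.I * L (Pi.single j Complex.I))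
      = L ξ - Complex.I * L (Complex.I • ξ) := by
  rw [lin_exp L ξ, lin_exp L (Complex.I • ξ), Finset.mul_sum, ← Finset.sum_sub_distrib]
  apply Finset.sum_congr rfl
  intro j _
  have h1 : (((Complex.I • ξ) j).re : ℂ) = -((ξ j).im : ℂ) := by
    simp [Complex.mul_re]
  have h2 : (((Complex.I • ξ) j).im : ℂ) = ((ξ j).re : ℂ) := by
    simp [Complex.mul_im]
  rw [h1, h2]
  have h3 : ξ j = ((ξ j).re : ℂ) + ((ξ j).im : ℂ) * Complex.I := (Complex.re_add_im (ξ j)).symm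
  conv_lhs => rw [h3]
  have h4 := Complex.I_mul_I
  linear_combination (- ((ξ j).im : ℂ) * L (Pi.single j Complex.I)) * h4

lemma lin_b (L : (Fin m → ℂ) →L[ℝ] ℂ) (ξ : Fin m → ℂ) :
    ∑ j, star (ξ j) * (L (Pi.single j 1) + Complex.I * L (Pi.single j Complex.I))
      = L ξ + Complex.I * L (Complex.I • ξ) := by
  rw [lin_exp L ξ, lin_exp L (Complex.I • ξ), Finset.mul_sum, ← Finset.sum_add_distrib]
  apply Finset.sum_congr rfl
  intro j _
  have h1 : (((Complex.I • ξ) j).re : ℂ) = -((ξ j).im : ℂ) := by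
    simp [Complex.mul_re]
  have h2 : (((Complex.I • ξ) j).im : ℂ) = ((ξ j).re : ℂ) := by
    simp [Complex.mul_im]
  rw [h1, h2]
  have h3 : star (ξ j) = ((ξ j).re : ℂ) - ((ξ j).im : ℂ) * Complex.I := by
    apply Complex.ext <;> simp
  conv_lhs => rw [h3]
  have h4 := Complex.I_mul_I
  linear_combination (- ((ξ j).im : ℂ) * L (Pi.single j Complex.I)) * h4

lemma hf_hes (f : (Fin m → ℂ) → ℝ) (z : Fin m → ℂ) (hf2 : ContDiffAt ℝ 2 f z) (ξ : Fin m → ℂ) :
    hf (hes f z) ξ = lp ξ f z / 4 := by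
  have hev : ∀ᶠ w in 𝓝 z, fderiv ℝ (cf f) w = Complex.ofRealCLM ∘L fderiv ℝ f w := by
    filter_upwards [hf2.eventually (by simp)] with w hw
    have hd : DifferentiableAt ℝ f w := hw.differentiableAt (by norm_num)
    exact (Complex.ofRealCLM.hasFDerivAt.comp w hd.hasFDerivAt).fderiv
  have hd1 : DifferentiableAt ℝ (fderiv ℝ f) z :=
    (hf2.fderiv_right (m := 1) (by norm_num)).differentiableAt (by norm_num)
  have hA : ∀ v : Fin m → ℂ, DifferentiableAt ℝ (fun w => ((fderiv ℝ f w v : ℝ) : ℂ)) z := by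
    intro v
    exact Complex.ofRealCLM.differentiableAt.comp z (hd1.clm_apply (differentiableAt_const v))
  have hA' : ∀ v w : Fin m → ℂ, fderiv ℝ (fun w => ((fderiv ℝ f w v : ℝ) : ℂ)) z w
      = ((dd w (dd v f) z : ℝ) : ℂ) := by
    intro v w
    have h := (Complex.ofRealCLM.hasFDerivAt.comp z
      (hd1.clm_apply (differentiableAt_const v)).hasFDerivAt).fderiv
    have h2 : fderiv ℝ (fun w => ((fderiv ℝ f w v : ℝ) : ℂ)) z = _ := h
    rw [h2]
    rfl
  set c : Fin m → (Fin m → ℂ) → ℂ := fun k w => ((fderiv ℝ f w (Pi.single k 1) : ℝ) : ℂ)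
    + Complex.I * ((fderiv ℝ f w (Pi.single k Complex.I) : ℝ) : ℂ) with hc
  have hcd : ∀ k, DifferentiableAt ℝ (c k) z := fun k =>
    (hA _).add ((differentiableAt_const _).mul (hA _))
  have hdb : ∀ k, db k (cf f) =ᶠ[𝓝 z] fun w => c k w / 2 := by
    intro k
    filter_upwards [hev] with w hw
    simp only [db, hw, hc]
    rfl
  set T : (Fin m → ℂ) → ℂ := fun w => ((fderiv ℝ f w ξ : ℝ) : ℂ)
    + Complex.I * ((fderiv ℝ f w (Complex.I • ξ) : ℝ) : ℂ) with hT
  have hsum : ∀ w, ∑ k, star (ξ k) * c k w = T w := fun w =>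
    lin_b (Complex.ofRealCLM ∘L fderiv ℝ f w) ξ
  have hTder : ∀ v, fderiv ℝ T z v = ∑ k, star (ξ k) * fderiv ℝ (c k) z v := by
    intro v
    have h1 : T = fun w => ∑ k, star (ξ k) * c k w := by
      funext w
      exact (hsum w).symm
    rw [h1]
    rw [fderiv_fun_sum (fun k _ => (hcd k).const_mul (star (ξ k)))]
    rw [sum_apply]
    apply Finset.sum_congr rfl
    intro k _
    rw [fderiv_const_mul (hcd k)]
    rfl
  have hdz : ∀ j k, hes f z j k = (fderiv ℝ (c k) z (Pi.single j 1)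
      - Complex.I * fderiv ℝ (c k) z (Pi.single j Complex.I)) / 4 := by
    intro j k
    have h1 : fderiv ℝ (db k (cf f)) z = (1 / 2 : ℂ) • fderiv ℝ (c k) z := by
      rw [(hdb k).fderiv_eq]
      have h2 : (fun w => c k w / 2) = fun w => (1 / 2 : ℂ) * c k w := by
        funext w
        ring
      rw [h2, fderiv_const_mul (hcd k)]
    simp only [hes, Matrix.of_apply, dz, h1]
    change ((1 / 2 : ℂ) * fderiv ℝ (c k) z (Pi.single j 1)
      - Complex.I * ((1 / 2 : ℂ) * fderiv ℝ (c k) z (Pi.single j Complex.I))) / 2 = _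
    ring
  have hTd : ∀ v, fderiv ℝ T z v = ((dd v (dd ξ f) z : ℝ) : ℂ)
      + Complex.I * ((dd v (dd (Complex.I • ξ) f) z : ℝ) : ℂ) := by
    intro v
    rw [hT]
    rw [fderiv_fun_add (hA _) ((hA _).const_mul Complex.I), fderiv_const_mul (hA _)]
    change fderiv ℝ _ z v + Complex.I * fderiv ℝ _ z v = _
    rw [hA', hA']
  have hmain : ∑ j, ∑ k, hes f z j k * ξ j * star (ξ k)
      = (fderiv ℝ T z ξ - Complex.I * fderiv ℝ T z (Complex.I • ξ)) / 4 := by
    rw [← lin_a (fderiv ℝ T z) ξ, Finset.sum_div]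
    apply Finset.sum_congr rfl
    intro j _
    rw [hTder, hTder, Finset.mul_sum, ← Finset.sum_sub_distrib, Finset.mul_sum, Finset.sum_div]
    apply Finset.sum_congr rfl
    intro k _
    rw [hdz j k]
    ring
  unfold hf
  rw [hmain, hTd, hTd]
  simp only [lp]
  have h4 : (((dd ξ (dd ξ f) z : ℝ) : ℂ) + Complex.I * ((dd ξ (dd (Complex.I • ξ) f) z : ℝ) : ℂ)
      - Complex.I * (((dd (Complex.I • ξ) (dd ξ f) z : ℝ) : ℂ)
      + Complex.I * ((dd (Complex.I • ξ) (dd (Complex.I • ξ) f) z : ℝ) : ℂ))) / 4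
      = (((dd ξ (dd ξ f) z + dd (Complex.I • ξ) (dd (Complex.I • ξ) f) z) / 4 : ℝ) : ℂ)
        + (((dd ξ (dd (Complex.I • ξ) f) z - dd (Complex.I • ξ) (dd ξ f) z) / 4 : ℝ) : ℂ) * Complex.I := by
    push_cast
    linear_combination (-((dd (Complex.I • ξ) (dd (Complex.I • ξ) f) z : ℝ) : ℂ) / 4) * Complex.I_mul_I
  rw [h4]
  simp

end Linear

section Calc

variable {m : ℕ}

lemma dd_mul (v : Fin m → ℂ) (f g : (Fin m → ℂ) → ℝ) (z : Fin m → ℂ) (hf : DifferentiableAt ℝ f z)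
    (hg : DifferentiableAt ℝ g z) :
    dd v (fun w => f w * g w) z = f z * dd v g z + g z * dd v f z := by
  unfold dd
  rw [fderiv_fun_mul hf hg]
  rfl

lemma dd_add (v : Fin m → ℂ) (f g : (Fin m → ℂ) → ℝ) (z : Fin m → ℂ) (hf : DifferentiableAt ℝ f z)
    (hg : DifferentiableAt ℝ g z) :
    dd v (fun w => f w + g w) z = dd v f z + dd v g z := by
  unfold dd
  rw [fderiv_fun_add hf hg]
  rfl

lemma dd_sub (v : Fin m → ℂ) (f g : (Fin m → ℂ) → ℝ) (z : Fin m → ℂ) (hf : DifferentiableAt ℝ f z)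
    (hg : DifferentiableAt ℝ g z) :
    dd v (fun w => f w - g w) z = dd v f z - dd v g z := by
  unfold dd
  rw [fderiv_fun_sub hf hg]
  rfl

lemma dd_congr (v : Fin m → ℂ) {f g : (Fin m → ℂ) → ℝ} {z : Fin m → ℂ} (h : f =ᶠ[𝓝 z] g) :
    dd v f z = dd v g z := by
  unfold dd
  rw [h.fderiv_eq]

lemma dd_congr' (v : Fin m → ℂ) {f g : (Fin m → ℂ) → ℝ} {z : Fin m → ℂ} (h : f =ᶠ[𝓝 z] g) :
    dd v f =ᶠ[𝓝 z] dd v g := by
  filter_upwards [h.eventuallyEq_nhds] with w hw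
  exact dd_congr v hw

lemma dd_zero (v : Fin m → ℂ) (z : Fin m → ℂ) : dd v (fun _ => (0 : ℝ)) z = 0 := by
  unfold dd
  simp

lemma dd_smooth (v : Fin m → ℂ) {f : (Fin m → ℂ) → ℝ} {z : Fin m → ℂ} (hf : ContDiffAt ℝ ∞ f z) :
    ContDiffAt ℝ ∞ (dd v f) z :=
  (hf.fderiv_right (m := ∞) (by simp)).clm_apply contDiffAt_const

lemma sm_diff {f : (Fin m → ℂ) → ℝ} {z : Fin m → ℂ} (hf : ContDiffAt ℝ ∞ f z) :
    DifferentiableAt ℝ f z := hf.differentiableAt (by simp)

/-- second derivative of a product -/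
lemma dd_dd_mul (v : Fin m → ℂ) (f g : (Fin m → ℂ) → ℝ) (z : Fin m → ℂ) (hf : ContDiffAt ℝ ∞ f z)
    (hg : ContDiffAt ℝ ∞ g z) :
    dd v (dd v (fun w => f w * g w)) z = f z * dd v (dd v g) z + 2 * (dd v f z * dd v g z)
      + g z * dd v (dd v f) z := by
  have h1 : dd v (fun w => f w * g w) =ᶠ[𝓝 z] fun w => f w * dd v g w + g w * dd v f w := by
    have hf2 : ContDiffAt ℝ 2 f z := by exact_mod_cast contDiffAt_infty.1 hf 2
    have hg2 : ContDiffAt ℝ 2 g z := by exact_mod_cast contDiffAt_infty.1 hg 2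
    filter_upwards [hf2.eventually (by simp), hg2.eventually (by simp)] with w hw hw'
    exact dd_mul v f g w (hw.differentiableAt (by norm_num)) (hw'.differentiableAt (by norm_num))
  have hfd := sm_diff hf
  have hgd := sm_diff hg
  have hfd' := sm_diff (dd_smooth v hf)
  have hgd' := sm_diff (dd_smooth v hg)
  rw [dd_congr v h1, dd_add v _ _ z (hfd.fun_mul hgd') (hgd.fun_mul hfd'), dd_mul v _ _ z hfd hgd',
    dd_mul v _ _ z hgd hfd']
  ring

lemma lp_mul (ξ : Fin m → ℂ) (f g : (Fin m → ℂ) → ℝ) (z : Fin m → ℂ) (hf : ContDiffAt ℝ ∞ f z)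
    (hg : ContDiffAt ℝ ∞ g z) :
    lp ξ (fun w => f w * g w) z = g z * lp ξ f z
      + (2 * (dd ξ f z * dd ξ g z + dd (Complex.I • ξ) f z * dd (Complex.I • ξ) g z)
        + f z * lp ξ g z) := by
  unfold lp
  rw [dd_dd_mul ξ f g z hf hg, dd_dd_mul (Complex.I • ξ) f g z hf hg]
  ring

lemma lp_smooth (ξ : Fin m → ℂ) {f : (Fin m → ℂ) → ℝ} {z : Fin m → ℂ} (hf : ContDiffAt ℝ ∞ f z) :
    ContDiffAt ℝ ∞ (lp ξ f) z :=
  (dd_smooth _ (dd_smooth _ hf)).add (dd_smooth _ (dd_smooth _ hf))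

lemma lp_congr (ξ : Fin m → ℂ) {f g : (Fin m → ℂ) → ℝ} {z : Fin m → ℂ} (h : f =ᶠ[𝓝 z] g) :
    lp ξ f z = lp ξ g z := by
  unfold lp
  rw [dd_congr ξ (dd_congr' ξ h), dd_congr _ (dd_congr' _ h)]

lemma lp_zero (ξ : Fin m → ℂ) (z : Fin m → ℂ) : lp ξ (fun _ => (0 : ℝ)) z = 0 := by
  have h : ∀ v : Fin m → ℂ, dd v (fun _ : Fin m → ℂ => (0 : ℝ)) = fun _ => 0 := fun v =>
    funext fun z => dd_zero v z
  unfold lp
  rw [h, h, h, dd_zero]
  simp

/-- the integral of a derivative -/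
lemma int_dd (v : Fin m → ℂ) (F : (Fin m → ℂ) → ℝ) (hF : ContDiff ℝ ∞ F) (hc : HasCompactSupport F) :
    Integrable (dd v F) ∧ ∫ z, dd v F z = 0 := by
  have hdd : ContDiff ℝ ∞ (dd v F) := contDiff_iff_contDiffAt.2 fun z =>
    dd_smooth v hF.contDiffAt
  have hcd : HasCompactSupport (dd v F) := by
    refine (hc.fderiv (𝕜 := ℝ)).mono ?_
    intro z hz
    simp only [Function.mem_support, dd] at hz ⊢
    intro h
    exact hz (by rw [h]; rfl)
  have hi : Integrable (dd v F) := hdd.continuous.integrable_of_hasCompactSupport hcd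
  refine ⟨hi, ?_⟩
  have h := integral_mul_fderiv_eq_neg_fderiv_mul_of_integrable (μ := volume) (𝕜 := ℝ)
    (f := fun _ : Fin m → ℂ => (1 : ℝ)) (g := F) (v := v) (by simp)
    (by simpa using (show Integrable (fun z => fderiv ℝ F z v) volume from hi))
    (by simpa using hF.continuous.integrable_of_hasCompactSupport hc)
    (fun x _ => differentiableAt_const _) (fun x _ => hF.differentiable (by simp) x)
  simpa [dd] using h

end Calc

section Poly

variable {m : ℕ}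

/-- the derivative of a polynomial -/
noncomputable def dP (P : MvPolynomial (Fin m) ℂ) (z : Fin m → ℂ) : (Fin m → ℂ) →L[ℂ] ℂ :=
  ∑ j, ev (MvPolynomial.pderiv j P) z • (ContinuousLinearMap.proj j : (Fin m → ℂ) →L[ℂ] ℂ)

lemma dP_apply (P : MvPolynomial (Fin m) ℂ) (z v : Fin m → ℂ) :
    dP P z v = ∑ j, ev (MvPolynomial.pderiv j P) z * v j := by
  unfold dP
  rw [sum_apply]
  rfl

lemma hasF_ev (P : MvPolynomial (Fin m) ℂ) (z : Fin m → ℂ) :
    HasFDerivAt (fun w => ev P w) (dP P z) z := by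
  induction P using MvPolynomial.induction_on with
  | C a =>
    have h : dP (MvPolynomial.C a) z = 0 := by
      ext v
      simp [dP_apply]
    rw [h]
    simpa using hasFDerivAt_const (a : ℂ) z
  | add p q hp hq =>
    have h : dP (p + q) z = dP p z + dP q z := by
      refine ContinuousLinearMap.ext fun v => ?_
      simp only [dP_apply, map_add, add_apply, add_mul, Finset.sum_add_distrib]
    rw [h]
    have h2 : (fun w : Fin m → ℂ => ev (p + q) w) = fun w => ev p w + ev q w := by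
      funext w
      simp
    rw [h2]
    exact hp.fun_add hq
  | mul_X p i hp =>
    have h : dP (p * MvPolynomial.X i) z = ev p z • (ContinuousLinearMap.proj i : (Fin m → ℂ) →L[ℂ] ℂ)
        + z i • dP p z := by
      refine ContinuousLinearMap.ext fun v => ?_
      simp only [dP_apply, MvPolynomial.pderiv_mul, map_add, map_mul, MvPolynomial.eval_X,
        add_apply, add_mul, Finset.sum_add_distrib]
      change _ = ev p z * v i + z i * dP p z v
      rw [dP_apply, add_comm]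
      congr 1
      · rw [Finset.sum_eq_single i]
        · simp
        · intro j _ hj
          rw [MvPolynomial.pderiv_X_of_ne (by exact fun h => hj h.symm)]
          simp
        · simp
      · rw [Finset.mul_sum]
        apply Finset.sum_congr rfl
        intro j _
        ring
    rw [h]
    have h2 : (fun w : Fin m → ℂ => ev (p * MvPolynomial.X i) w) = fun w => ev p w * w i := by
      funext w
      simp
    rw [h2]
    exact hp.mul ((ContinuousLinearMap.proj i : (Fin m → ℂ) →L[ℂ] ℂ).hasFDerivAt (x := z))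

lemma ev_cont (P : MvPolynomial (Fin m) ℂ) : Continuous fun w => ev P w :=
  MvPolynomial.continuous_eval P

lemma ev_smooth (P : MvPolynomial (Fin m) ℂ) : ContDiff ℂ ∞ fun w => ev P w := by
  induction P using MvPolynomial.induction_on with
  | C a => simpa using contDiff_const
  | add p q hp hq => simpa using hp.add hq
  | mul_X p i hp =>
    have h2 : (fun w : Fin m → ℂ => ev (p * MvPolynomial.X i) w) = fun w => ev p w * w i := by
      funext w
      simp
    rw [h2]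
    exact hp.mul (contDiff_apply ℂ ℂ i)

/-- `∂_v P / P` -/
noncomputable def qq (P : MvPolynomial (Fin m) ℂ) (v z : Fin m → ℂ) : ℂ := dP P z v / ev P z

lemma qq_I (P : MvPolynomial (Fin m) ℂ) (v z : Fin m → ℂ) :
    qq P (Complex.I • v) z = Complex.I * qq P v z := by
  unfold qq
  rw [map_smul, smul_eq_mul, mul_div_assoc]

lemma qq_diff (P : MvPolynomial (Fin m) ℂ) (v z : Fin m → ℂ) (hz : ev P z ≠ 0) :
    DifferentiableAt ℂ (qq P v) z := by
  have h1 : (fun w => dP P w v) = fun w => ∑ j, ev (MvPolynomial.pderiv j P) w * v j := by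
    funext w
    exact dP_apply P w v
  have h2 : DifferentiableAt ℂ (fun w => dP P w v) z := by
    rw [h1]
    exact DifferentiableAt.fun_sum fun j _ =>
      ((hasF_ev _ z).differentiableAt.mul_const _)
  have h3 : DifferentiableAt ℂ (fun w : Fin m → ℂ => ev P w) z := (hasF_ev P z).differentiableAt
  have h4 : qq P v = fun w => dP P w v * (ev P w)⁻¹ := by
    funext w
    exact div_eq_mul_inv _ _
  rw [h4]
  exact h2.fun_mul (h3.fun_inv hz)

/-- `log |P|²` -/
noncomputable def NN (P : MvPolynomial (Fin m) ℂ) (z : Fin m → ℂ) : ℝ :=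
  Real.log (Complex.normSq (ev P z))

lemma NN_smooth (P : MvPolynomial (Fin m) ℂ) (z : Fin m → ℂ) (hz : ev P z ≠ 0) :
    ContDiffAt ℝ ∞ (NN P) z := by
  have h1 : ContDiffAt ℝ ∞ (fun w => ev P w) z := (ev_smooth P).contDiffAt.restrict_scalars ℝ
  have h2 : ContDiffAt ℝ ∞ (fun w => Complex.normSq (ev P w)) z := by
    have h3 : (fun w => Complex.normSq (ev P w)) = fun w => (ev P w).re * (ev P w).re
        + (ev P w).im * (ev P w).im := by
      funext w
      exact Complex.normSq_apply _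
    rw [h3]
    have hre : ContDiffAt ℝ ∞ (fun w => (ev P w).re) z :=
      Complex.reCLM.contDiff.contDiffAt.comp z h1
    have him : ContDiffAt ℝ ∞ (fun w => (ev P w).im) z :=
      Complex.imCLM.contDiff.contDiffAt.comp z h1
    exact (hre.mul hre).add (him.mul him)
  exact h2.log (by simpa using hz)

lemma dd_NN (P : MvPolynomial (Fin m) ℂ) (v z : Fin m → ℂ) (hz : ev P z ≠ 0) :
    dd v (NN P) z = 2 * (qq P v z).re := by
  have h1 : HasFDerivAt (fun w => ev P w) ((dP P z).restrictScalars ℝ) z :=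
    (hasF_ev P z).restrictScalars ℝ
  have hre := Complex.reCLM.hasFDerivAt.comp z h1
  have him := Complex.imCLM.hasFDerivAt.comp z h1
  have h2 := (hre.mul hre).add (him.mul him)
  have hns : Complex.normSq (ev P z) ≠ 0 := by simpa using hz
  have h3 : (Complex.reCLM ∘ fun w => ev P w) * (Complex.reCLM ∘ fun w => ev P w)
      + (Complex.imCLM ∘ fun w => ev P w) * (Complex.imCLM ∘ fun w => ev P w)
      = fun w => Complex.normSq (ev P w) := by
    funext w
    exact (Complex.normSq_apply _).symm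
  rw [h3] at h2
  have h4 := h2.log hns
  have h5 : fderiv ℝ (NN P) z = _ := h4.fderiv
  unfold dd
  rw [h5]
  change (Complex.normSq (ev P z))⁻¹ * (((ev P z).re * (dP P z v).re + (ev P z).re * (dP P z v).re)
    + ((ev P z).im * (dP P z v).im + (ev P z).im * (dP P z v).im)) = _
  unfold qq
  rw [Complex.div_re]
  field_simp
  ring

lemma dd_re (v z : Fin m → ℂ) (q : (Fin m → ℂ) → ℂ) (hq : DifferentiableAt ℂ q z) :
    dd v (fun w => 2 * (q w).re) z = 2 * (fderiv ℂ q z v).re := by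
  have h1 : HasFDerivAt q ((fderiv ℂ q z).restrictScalars ℝ) z := hq.hasFDerivAt.restrictScalars ℝ
  have hre := (Complex.reCLM.hasFDerivAt.comp z h1).const_mul 2
  have h5 : fderiv ℝ (fun w => 2 * (q w).re) z = _ := hre.fderiv
  unfold dd
  rw [h5]
  rfl

lemma lp_NN (P : MvPolynomial (Fin m) ℂ) (ξ z : Fin m → ℂ) (hz : ev P z ≠ 0) :
    lp ξ (NN P) z = 0 := by
  have hV : ∀ᶠ w in 𝓝 z, ev P w ≠ 0 := (ev_cont P).continuousAt.eventually_ne hz
  have h1 : ∀ v, dd v (NN P) =ᶠ[𝓝 z] fun w => 2 * (qq P v w).re := by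
    intro v
    filter_upwards [hV] with w hw
    exact dd_NN P v w hw
  unfold lp
  rw [dd_congr _ (h1 ξ), dd_congr _ (h1 (Complex.I • ξ)), dd_re _ _ _ (qq_diff P ξ z hz),
    dd_re _ _ _ (qq_diff P (Complex.I • ξ) z hz)]
  have h2 : qq P (Complex.I • ξ) = fun w => Complex.I * qq P ξ w := by
    funext w
    exact qq_I P ξ w
  rw [h2, fderiv_const_mul (qq_diff P ξ z hz)]
  change 2 * (fderiv ℂ (qq P ξ) z ξ).re + 2 * (Complex.I * fderiv ℂ (qq P ξ) z (Complex.I • ξ)).re = 0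
  rw [map_smul, smul_eq_mul, ← mul_assoc, Complex.I_mul_I]
  simp

end Poly

section Cut

variable {m : ℕ}

lemma st_der : ∃ C : ℝ, 0 ≤ C ∧ ∀ x : ℝ, |deriv Real.smoothTransition x| ≤ C ∧
    |deriv (deriv Real.smoothTransition) x| ≤ C ∧ ((x < 0 ∨ 1 < x) →
      deriv Real.smoothTransition x = 0 ∧ deriv (deriv Real.smoothTransition) x = 0) := by
  have hz : ∀ x : ℝ, (x < 0 ∨ 1 < x) →
      deriv Real.smoothTransition x = 0 ∧ deriv (deriv Real.smoothTransition) x = 0 := by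
    intro x hx
    have h0 : ∃ c : ℝ, Real.smoothTransition =ᶠ[𝓝 x] fun _ => c := by
      rcases hx with hx | hx
      · refine ⟨0, ?_⟩
        filter_upwards [gt_mem_nhds hx] with y hy
        exact Real.smoothTransition.zero_of_nonpos (le_of_lt hy)
      · refine ⟨1, ?_⟩
        filter_upwards [lt_mem_nhds hx] with y hy
        exact Real.smoothTransition.one_of_one_le (le_of_lt hy)
    obtain ⟨c, hc⟩ := h0
    have h1 : deriv Real.smoothTransition =ᶠ[𝓝 x] fun _ => 0 := by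
      filter_upwards [hc.eventuallyEq_nhds] with y hy
      rw [hy.deriv_eq]
      simp
    refine ⟨h1.self_of_nhds, ?_⟩
    rw [h1.deriv_eq]
    simp
  have hs : ContDiff ℝ ∞ Real.smoothTransition := Real.smoothTransition.contDiff
  have hs1 : ContDiff ℝ ∞ (deriv Real.smoothTransition) := by
    have := (contDiff_infty_iff_deriv.1 hs).2
    exact this
  have hs2 : ContDiff ℝ ∞ (deriv (deriv Real.smoothTransition)) := (contDiff_infty_iff_deriv.1 hs1).2
  obtain ⟨C₁, hC₁⟩ := isCompact_Icc.exists_bound_of_continuousOn (s := Set.Icc (0 : ℝ) 1)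
    hs1.continuous.continuousOn
  obtain ⟨C₂, hC₂⟩ := isCompact_Icc.exists_bound_of_continuousOn (s := Set.Icc (0 : ℝ) 1)
    hs2.continuous.continuousOn
  refine ⟨max 0 (max C₁ C₂), le_max_left _ _, fun x => ⟨?_, ?_, hz x⟩⟩
  · by_cases hx : x < 0 ∨ 1 < x
    · rw [(hz x hx).1, abs_zero]
      exact le_max_left _ _
    · push Not at hx
      exact (hC₁ x ⟨hx.1, hx.2⟩).trans ((le_max_left _ _).trans (le_max_right _ _))
  · by_cases hx : x < 0 ∨ 1 < x
    · rw [(hz x hx).2, abs_zero]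
      exact le_max_left _ _
    · push Not at hx
      exact (hC₂ x ⟨hx.1, hx.2⟩).trans ((le_max_right _ _).trans (le_max_right _ _))

open Classical in
/-- logarithmic cutoff -/
noncomputable def TH (P : MvPolynomial (Fin m) ℂ) (k : ℕ) (z : Fin m → ℂ) : ℝ :=
  if ev P z = 0 then 0 else Real.smoothTransition (2 + NN P z / (2 * (k : ℝ) ^ 2))

lemma NN_log (P : MvPolynomial (Fin m) ℂ) (z : Fin m → ℂ) : NN P z = 2 * Real.log ‖ev P z‖ := by
  unfold NN
  rw [Complex.normSq_eq_norm_sq, Real.log_pow]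
  norm_num

lemma TH_eq (P : MvPolynomial (Fin m) ℂ) (k : ℕ) (z : Fin m → ℂ) (hz : ev P z ≠ 0) :
    TH P k =ᶠ[𝓝 z] fun w => Real.smoothTransition (2 + NN P w / (2 * (k : ℝ) ^ 2)) := by
  filter_upwards [(ev_cont P).continuousAt.eventually_ne hz] with w hw
  simp only [TH, if_neg hw]

lemma TH_zero (P : MvPolynomial (Fin m) ℂ) (k : ℕ) (hk : 1 ≤ k) (z : Fin m → ℂ) (hz : ev P z = 0) :
    TH P k =ᶠ[𝓝 z] fun _ => 0 := by
  have h1 : ∀ᶠ w in 𝓝 z, ‖ev P w‖ < Real.exp (-(2 * (k : ℝ) ^ 2)) := by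
    have : ContinuousAt (fun w => ‖ev P w‖) z := (ev_cont P).norm.continuousAt
    apply this.eventually_lt_const
    simp only [hz, norm_zero]
    exact Real.exp_pos _
  have hkk : (0 : ℝ) < (k : ℝ) ^ 2 := by positivity
  filter_upwards [h1] with w hw
  by_cases h : ev P w = 0
  · simp only [TH, if_pos h]
  · simp only [TH, if_neg h]
    apply Real.smoothTransition.zero_of_nonpos
    have h2 : Real.log ‖ev P w‖ < -(2 * (k : ℝ) ^ 2) := by
      rw [Real.log_lt_iff_lt_exp (norm_pos_iff.2 h)]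
      exact hw
    have h3 : NN P w / (2 * (k : ℝ) ^ 2) ≤ -2 := by
      rw [NN_log, div_le_iff₀ (by positivity)]
      linarith
    linarith

lemma TH_smooth (P : MvPolynomial (Fin m) ℂ) (k : ℕ) (hk : 1 ≤ k) : ContDiff ℝ ∞ (TH P k) := by
  rw [contDiff_iff_contDiffAt]
  intro z
  by_cases hz : ev P z = 0
  · exact contDiffAt_const.congr_of_eventuallyEq (TH_zero P k hk z hz)
  · refine ContDiffAt.congr_of_eventuallyEq ?_ (TH_eq P k z hz)
    have h1 : ContDiffAt ℝ ∞ (fun w => 2 + NN P w / (2 * (k : ℝ) ^ 2)) z :=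
      contDiffAt_const.add ((NN_smooth P z hz).div_const _)
    have hs : ContDiff ℝ ∞ Real.smoothTransition := Real.smoothTransition.contDiff
    exact hs.contDiffAt.comp z h1

lemma TH_nonneg (P : MvPolynomial (Fin m) ℂ) (k : ℕ) (z : Fin m → ℂ) : 0 ≤ TH P k z := by
  unfold TH
  split_ifs
  · exact le_rfl
  · exact Real.smoothTransition.nonneg _

lemma TH_le_one (P : MvPolynomial (Fin m) ℂ) (k : ℕ) (z : Fin m → ℂ) : TH P k z ≤ 1 := by
  unfold TH
  split_ifs
  · exact zero_le_one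
  · exact Real.smoothTransition.le_one _

lemma TH_tendsto (P : MvPolynomial (Fin m) ℂ) (z : Fin m → ℂ) (hz : ev P z ≠ 0) :
    Tendsto (fun k => TH P k z) atTop (𝓝 1) := by
  apply tendsto_const_nhds.congr'
  have h1 : ∀ᶠ k : ℕ in atTop, -NN P z ≤ (k : ℝ) :=
    tendsto_natCast_atTop_atTop.eventually_ge_atTop _
  filter_upwards [h1, eventually_ge_atTop 1] with k hk hk1
  have hkR : (1 : ℝ) ≤ k := by exact_mod_cast hk1
  simp only [TH, if_neg hz]
  symm
  apply Real.smoothTransition.one_of_one_le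
  have h2 : -1 ≤ NN P z / (2 * (k : ℝ) ^ 2) := by
    rw [le_div_iff₀ (by positivity)]
    nlinarith
  linarith

lemma diff_dc {f : (Fin m → ℂ) → ℝ} {z : Fin m → ℂ} (h : DifferentiableAt ℝ f z) (c : ℝ) :
    DifferentiableAt ℝ (fun w => f w / c) z := by
  simpa only [div_eq_mul_inv] using h.mul_const c⁻¹

lemma dd_comp (v : Fin m → ℂ) (g : ℝ → ℝ) (h : (Fin m → ℂ) → ℝ) (z : Fin m → ℂ)
    (hg : DifferentiableAt ℝ g (h z)) (hh : DifferentiableAt ℝ h z) :
    dd v (fun w => g (h w)) z = deriv g (h z) * dd v h z := by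
  unfold dd
  have := (hg.hasDerivAt.comp_hasFDerivAt z hh.hasFDerivAt).fderiv
  have h2 : fderiv ℝ (fun w => g (h w)) z = _ := this
  rw [h2]
  rfl

lemma dd_TH (P : MvPolynomial (Fin m) ℂ) (k : ℕ) (v z : Fin m → ℂ) (hz : ev P z ≠ 0) :
    dd v (TH P k) z = deriv Real.smoothTransition (2 + NN P z / (2 * (k : ℝ) ^ 2)) *
      (dd v (NN P) z / (2 * (k : ℝ) ^ 2)) ∧
    dd v (dd v (TH P k)) z = deriv (deriv Real.smoothTransition) (2 + NN P z / (2 * (k : ℝ) ^ 2)) *
      (dd v (NN P) z / (2 * (k : ℝ) ^ 2)) ^ 2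
      + deriv Real.smoothTransition (2 + NN P z / (2 * (k : ℝ) ^ 2)) *
        (dd v (dd v (NN P)) z / (2 * (k : ℝ) ^ 2)) := by
  have hs : ContDiff ℝ ∞ Real.smoothTransition := Real.smoothTransition.contDiff
  have hs1 : ContDiff ℝ ∞ (deriv Real.smoothTransition) := (contDiff_infty_iff_deriv.1 hs).2
  have hV : ∀ᶠ w in 𝓝 z, ev P w ≠ 0 := (ev_cont P).continuousAt.eventually_ne hz
  have hh : ∀ w, ev P w ≠ 0 → DifferentiableAt ℝ (fun w => 2 + NN P w / (2 * (k : ℝ) ^ 2)) w :=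
    fun w hw => (differentiableAt_const _).fun_add (diff_dc (sm_diff (NN_smooth P w hw)) _)
  have hdh : ∀ w, ev P w ≠ 0 → dd v (fun w => 2 + NN P w / (2 * (k : ℝ) ^ 2)) w
      = dd v (NN P) w / (2 * (k : ℝ) ^ 2) := by
    intro w hw
    have e1 : (fun w => 2 + NN P w / (2 * (k : ℝ) ^ 2))
        = fun w => (fun _ : Fin m → ℂ => (2 : ℝ)) w
          + (fun w => (fun _ : Fin m → ℂ => (2 * (k : ℝ) ^ 2)⁻¹) w * NN P w) w := by
      funext w
      rw [div_eq_inv_mul]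
    rw [e1, dd_add v _ _ w (differentiableAt_const _)
      ((differentiableAt_const _).fun_mul (sm_diff (NN_smooth P w hw))),
      dd_mul v _ _ w (differentiableAt_const _) (sm_diff (NN_smooth P w hw))]
    have e2 : ∀ c : ℝ, dd v (fun _ : Fin m → ℂ => c) w = 0 := by
      intro c
      unfold dd
      simp
    rw [e2, e2]
    rw [div_eq_inv_mul]
    ring
  have h1 : ∀ w, ev P w ≠ 0 → dd v (TH P k) w
      = deriv Real.smoothTransition (2 + NN P w / (2 * (k : ℝ) ^ 2)) *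
        (dd v (NN P) w / (2 * (k : ℝ) ^ 2)) := by
    intro w hw
    rw [dd_congr v (TH_eq P k w hw), dd_comp v _ _ w (hs.differentiable (by simp) _) (hh w hw),
      hdh w hw]
  refine ⟨h1 z hz, ?_⟩
  have h2 : dd v (TH P k) =ᶠ[𝓝 z] fun w =>
      (fun w => deriv Real.smoothTransition (2 + NN P w / (2 * (k : ℝ) ^ 2))) w *
        (fun w => dd v (NN P) w / (2 * (k : ℝ) ^ 2)) w := by
    filter_upwards [hV] with w hw
    exact h1 w hw
  have hdN : DifferentiableAt ℝ (dd v (NN P)) z := sm_diff (dd_smooth v (NN_smooth P z hz))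
  have hA : DifferentiableAt ℝ (fun w => deriv Real.smoothTransition
      (2 + NN P w / (2 * (k : ℝ) ^ 2))) z :=
    (hs1.differentiable (by simp) _).comp z (hh z hz)
  have hB : DifferentiableAt ℝ (fun w => dd v (NN P) w / (2 * (k : ℝ) ^ 2)) z := diff_dc hdN _
  rw [dd_congr v h2, dd_mul v _ _ z hA hB,
    dd_comp v (deriv Real.smoothTransition) _ z (hs1.differentiable (by simp) _) (hh z hz),
    hdh z hz]
  have hC : dd v (fun w => dd v (NN P) w / (2 * (k : ℝ) ^ 2)) z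
      = dd v (dd v (NN P)) z / (2 * (k : ℝ) ^ 2) := by
    have e1 : (fun w => dd v (NN P) w / (2 * (k : ℝ) ^ 2))
        = fun w => (fun _ : Fin m → ℂ => (2 * (k : ℝ) ^ 2)⁻¹) w * dd v (NN P) w := by
      funext w
      rw [div_eq_inv_mul]
    rw [e1, dd_mul v _ _ z (differentiableAt_const _) hdN]
    have e2 : ∀ c : ℝ, dd v (fun _ : Fin m → ℂ => c) z = 0 := by
      intro c
      unfold dd
      simp
    rw [e2, div_eq_inv_mul]
    ring
  rw [hC]
  ring

/-- the part of the Laplacian of `φ θ` which contains derivatives of `θ` -/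
noncomputable def RR (P : MvPolynomial (Fin m) ℂ) (ξ : Fin m → ℂ) (φ : (Fin m → ℂ) → ℝ) (k : ℕ)
    (z : Fin m → ℂ) : ℝ :=
  2 * (dd ξ φ z * dd ξ (TH P k) z + dd (Complex.I • ξ) φ z * dd (Complex.I • ξ) (TH P k) z)
    + φ z * lp ξ (TH P k) z

lemma RR_zero (P : MvPolynomial (Fin m) ℂ) (ξ : Fin m → ℂ) (φ : (Fin m → ℂ) → ℝ) (k : ℕ)
    (hk : 1 ≤ k) (z : Fin m → ℂ) (hz : ev P z ≠ 0)
    (hs : ¬ (Real.exp (-(k : ℝ) ^ 2) ^ 2 ≤ ‖ev P z‖ ∧ ‖ev P z‖ ≤ Real.exp (-(k : ℝ) ^ 2))) :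
    RR P ξ φ k z = 0 := by
  obtain ⟨C, hC0, hC⟩ := st_der
  have hkk : (0 : ℝ) < (k : ℝ) ^ 2 := by positivity
  have hx : 2 + NN P z / (2 * (k : ℝ) ^ 2) < 0 ∨ 1 < 2 + NN P z / (2 * (k : ℝ) ^ 2) := by
    by_contra hc
    push Not at hc
    obtain ⟨h1, h2⟩ := hc
    apply hs
    have e1 : -2 ≤ NN P z / (2 * (k : ℝ) ^ 2) := by linarith
    have e2 : NN P z / (2 * (k : ℝ) ^ 2) ≤ -1 := by linarith
    rw [NN_log, le_div_iff₀ (by positivity)] at e1
    rw [NN_log, div_le_iff₀ (by positivity)] at e2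
    constructor
    · rw [← Real.exp_nat_mul, ← Real.le_log_iff_exp_le (norm_pos_iff.2 hz)]
      push_cast
      linarith
    · rw [← Real.log_le_iff_le_exp (norm_pos_iff.2 hz)]
      linarith
  obtain ⟨-, -, h3⟩ := hC (2 + NN P z / (2 * (k : ℝ) ^ 2))
  obtain ⟨h4, h5⟩ := h3 hx
  unfold RR lp
  rw [(dd_TH P k ξ z hz).1, (dd_TH P k (Complex.I • ξ) z hz).1, (dd_TH P k ξ z hz).2,
    (dd_TH P k (Complex.I • ξ) z hz).2, h4, h5]
  ring

lemma RR_bound (P : MvPolynomial (Fin m) ℂ) (ξ : Fin m → ℂ) (φ : (Fin m → ℂ) → ℝ) (C M : ℝ)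
    (hC0 : 0 ≤ C) (hM0 : 0 ≤ M)
    (hC : ∀ x : ℝ, |deriv Real.smoothTransition x| ≤ C ∧ |deriv (deriv Real.smoothTransition) x| ≤ C)
    (hM : ∀ z, |φ z| ≤ M ∧ |dd ξ φ z| ≤ M ∧ |dd (Complex.I • ξ) φ z| ≤ M) (k : ℕ)
    (hk : 1 ≤ k) (z : Fin m → ℂ) (hz : ev P z ≠ 0) :
    |RR P ξ φ k z| ≤ M * C * (2 / k + 3 * ‖qq P ξ z‖ ^ 2 / (k : ℝ) ^ 3) := by
  have hkR : (1 : ℝ) ≤ k := by exact_mod_cast hk
  have hk0 : (0 : ℝ) < k := by linarith
  obtain ⟨hφ, hφ1, hφ2⟩ := hM z
  obtain ⟨hs1, hs2⟩ := hC (2 + NN P z / (2 * (k : ℝ) ^ 2))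
  set x : ℝ := 2 + NN P z / (2 * (k : ℝ) ^ 2) with hxdef
  set q : ℂ := qq P ξ z with hq
  have hlN := lp_NN P ξ z hz
  have hn1 : dd ξ (NN P) z = 2 * q.re := dd_NN P ξ z hz
  have hn2 : dd (Complex.I • ξ) (NN P) z = -(2 * q.im) := by
    rw [dd_NN P (Complex.I • ξ) z hz, qq_I]
    simp [← hq]
  have hl : lp ξ (TH P k) z = deriv (deriv Real.smoothTransition) x * (‖q‖ ^ 2 / (k : ℝ) ^ 4) := by
    unfold lp at hlN ⊢
    rw [(dd_TH P k ξ z hz).2, (dd_TH P k (Complex.I • ξ) z hz).2, ← hxdef, hn1, hn2]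
    have e1 : ‖q‖ ^ 2 = q.re ^ 2 + q.im ^ 2 := by
      rw [← Complex.normSq_eq_norm_sq, Complex.normSq_apply]
      ring
    have e2 : dd (Complex.I • ξ) (dd (Complex.I • ξ) (NN P)) z = - dd ξ (dd ξ (NN P)) z := by
      linarith
    rw [e1, e2]
    field_simp
    ring
  have hre : |q.re| ≤ ‖q‖ := Complex.abs_re_le_norm q
  have him : |q.im| ≤ ‖q‖ := Complex.abs_im_le_norm q
  have hq0 : 0 ≤ ‖q‖ := norm_nonneg q
  have hb1 : |dd ξ (TH P k) z| ≤ C * (‖q‖ / (k : ℝ) ^ 2) := by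
    rw [(dd_TH P k ξ z hz).1, ← hxdef, abs_mul, hn1]
    apply mul_le_mul hs1 _ (abs_nonneg _) hC0
    rw [abs_div, abs_mul, abs_of_pos (by positivity : (0 : ℝ) < 2 * (k : ℝ) ^ 2),
      abs_of_pos (by norm_num : (0 : ℝ) < 2)]
    rw [div_le_div_iff₀ (by positivity) (by positivity)]
    nlinarith [sq_nonneg (k : ℝ), mul_le_mul_of_nonneg_right hre (sq_nonneg (k : ℝ))]
  have hb2 : |dd (Complex.I • ξ) (TH P k) z| ≤ C * (‖q‖ / (k : ℝ) ^ 2) := by
    rw [(dd_TH P k (Complex.I • ξ) z hz).1, ← hxdef, abs_mul, hn2]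
    apply mul_le_mul hs1 _ (abs_nonneg _) hC0
    rw [abs_div, abs_neg, abs_mul, abs_of_pos (by positivity : (0 : ℝ) < 2 * (k : ℝ) ^ 2),
      abs_of_pos (by norm_num : (0 : ℝ) < 2)]
    rw [div_le_div_iff₀ (by positivity) (by positivity)]
    nlinarith [sq_nonneg (k : ℝ), mul_le_mul_of_nonneg_right him (sq_nonneg (k : ℝ))]
  have hb3 : |lp ξ (TH P k) z| ≤ C * (‖q‖ ^ 2 / (k : ℝ) ^ 4) := by
    rw [hl, abs_mul, abs_of_nonneg (by positivity : 0 ≤ ‖q‖ ^ 2 / (k : ℝ) ^ 4)]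
    exact mul_le_mul_of_nonneg_right hs2 (by positivity)
  have t1 : |dd ξ φ z * dd ξ (TH P k) z| ≤ M * (C * (‖q‖ / (k : ℝ) ^ 2)) := by
    rw [abs_mul]
    exact mul_le_mul hφ1 hb1 (abs_nonneg _) hM0
  have t2 : |dd (Complex.I • ξ) φ z * dd (Complex.I • ξ) (TH P k) z|
      ≤ M * (C * (‖q‖ / (k : ℝ) ^ 2)) := by
    rw [abs_mul]
    exact mul_le_mul hφ2 hb2 (abs_nonneg _) hM0
  have t3 : |φ z * lp ξ (TH P k) z| ≤ M * (C * (‖q‖ ^ 2 / (k : ℝ) ^ 4)) := by
    rw [abs_mul]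
    exact mul_le_mul hφ hb3 (abs_nonneg _) hM0
  have t4 : |RR P ξ φ k z| ≤ 2 * (M * (C * (‖q‖ / (k : ℝ) ^ 2)) + M * (C * (‖q‖ / (k : ℝ) ^ 2)))
      + M * (C * (‖q‖ ^ 2 / (k : ℝ) ^ 4)) := by
    unfold RR
    refine (abs_add_le _ _).trans (add_le_add ?_ t3)
    rw [abs_mul, abs_of_pos (by norm_num : (0 : ℝ) < 2)]
    exact mul_le_mul_of_nonneg_left ((abs_add_le _ _).trans (add_le_add t1 t2)) (by norm_num)
  refine t4.trans ?_
  have hMC : 0 ≤ M * C := mul_nonneg hM0 hC0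
  have key : 4 * (‖q‖ / (k : ℝ) ^ 2) + ‖q‖ ^ 2 / (k : ℝ) ^ 4
      ≤ 2 / k + 3 * ‖q‖ ^ 2 / (k : ℝ) ^ 3 := by
    have a1 : 4 * (‖q‖ / (k : ℝ) ^ 2) ≤ 2 / k + 2 * ‖q‖ ^ 2 / (k : ℝ) ^ 3 := by
      have : 2 / (k : ℝ) + 2 * ‖q‖ ^ 2 / (k : ℝ) ^ 3 - 4 * (‖q‖ / (k : ℝ) ^ 2)
          = 2 * (k - ‖q‖) ^ 2 / (k : ℝ) ^ 3 := by
        field_simp
        ring
      have h0 : 0 ≤ 2 * ((k : ℝ) - ‖q‖) ^ 2 / (k : ℝ) ^ 3 := by positivity
      linarith
    have a2 : ‖q‖ ^ 2 / (k : ℝ) ^ 4 ≤ ‖q‖ ^ 2 / (k : ℝ) ^ 3 := by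
      apply div_le_div_of_nonneg_left (by positivity) (by positivity)
      exact pow_le_pow_right₀ hkR (by norm_num)
    have a3 : 2 * ‖q‖ ^ 2 / (k : ℝ) ^ 3 + ‖q‖ ^ 2 / (k : ℝ) ^ 3 = 3 * ‖q‖ ^ 2 / (k : ℝ) ^ 3 := by ring
    linarith
  calc 2 * (M * (C * (‖q‖ / (k : ℝ) ^ 2)) + M * (C * (‖q‖ / (k : ℝ) ^ 2)))
      + M * (C * (‖q‖ ^ 2 / (k : ℝ) ^ 4))
      = M * C * (4 * (‖q‖ / (k : ℝ) ^ 2) + ‖q‖ ^ 2 / (k : ℝ) ^ 4) := by ring
    _ ≤ M * C * (2 / k + 3 * ‖q‖ ^ 2 / (k : ℝ) ^ 3) := mul_le_mul_of_nonneg_left key hMC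

end Cut

section Main

variable {m : ℕ}

lemma sm_two {f : (Fin m → ℂ) → ℝ} {z : Fin m → ℂ} (hf : ContDiffAt ℝ ∞ f z) :
    ContDiffAt ℝ 2 f z := by exact_mod_cast contDiffAt_infty.1 hf 2

lemma u_int (V : Set (Fin m → ℂ)) (hV : IsOpen V) (u H : (Fin m → ℂ) → ℝ) (R₀ B : ℝ)
    (hu : ContinuousOn u V) (hB : ∀ z ∈ V, ‖z‖ ≤ R₀ → |u z| ≤ B) (hH : Continuous H)
    (hH0 : ∀ z, R₀ < ‖z‖ → H z = 0) :
    IntegrableOn (fun z => u z * H z) V ∧ Integrable (fun z => |B| * |H z|) ∧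
      ∀ z ∈ V, ‖u z * H z‖ ≤ |B| * |H z| := by
  have hc : HasCompactSupport H := HasCompactSupport.intro (isCompact_closedBall (0 : Fin m → ℂ) R₀)
    fun z hz => hH0 z (by simpa using hz)
  have hi : Integrable H := hH.integrable_of_hasCompactSupport hc
  have hi2 : Integrable (fun z => |B| * |H z|) := hi.abs.const_mul _
  have hb : ∀ z ∈ V, ‖u z * H z‖ ≤ |B| * |H z| := by
    intro z hz
    rw [Real.norm_eq_abs, abs_mul]
    by_cases h : ‖z‖ ≤ R₀
    · exact mul_le_mul_of_nonneg_right ((hB z hz h).trans (le_abs_self _)) (abs_nonneg _)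
    · rw [hH0 z (not_le.1 h)]
      simp
  refine ⟨?_, hi2, hb⟩
  refine Integrable.mono' hi2.integrableOn
    ((hu.mul hH.continuousOn).aestronglyMeasurable hV.measurableSet) ?_
  exact (ae_restrict_iff' hV.measurableSet).2 (Eventually.of_forall hb)

lemma key_ibp (V : Set (Fin m → ℂ)) (hV : IsOpen V) (u g : (Fin m → ℂ) → ℝ) (R₀ B : ℝ)
    (ξ : Fin m → ℂ) (hu : ContDiffOn ℝ ∞ u V) (hB : ∀ z ∈ V, ‖z‖ ≤ R₀ → |u z| ≤ B)
    (hg : ContDiff ℝ ∞ g) (hg0 : ∀ z, R₀ < ‖z‖ → g =ᶠ[𝓝 z] fun _ => 0)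
    (hgV : ∀ z, z ∉ V → g =ᶠ[𝓝 z] fun _ => 0) (hgn : ∀ z, 0 ≤ g z)
    (hl : ∀ z ∈ V, 0 ≤ lp ξ u z) : 0 ≤ ∫ z in V, u z * lp ξ g z := by
  have hus : ∀ z ∈ V, ContDiffAt ℝ ∞ u z := fun z hz => hu.contDiffAt (hV.mem_nhds hz)
  have hgs : ∀ z, ContDiffAt ℝ ∞ g z := fun z => hg.contDiffAt
  set F : (Fin m → ℂ) → (Fin m → ℂ) → ℝ := fun v z => u z * dd v g z - g z * dd v u z with hF
  have hF0 : ∀ v z, g =ᶠ[𝓝 z] (fun _ => 0) → F v =ᶠ[𝓝 z] fun _ => 0 := by
    intro v z h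
    filter_upwards [h, dd_congr' v h] with w hw hw'
    simp only [hF, hw, hw', dd_zero, mul_zero, zero_mul, sub_zero]
  have hFs : ∀ v, ContDiff ℝ ∞ (F v) := by
    intro v
    rw [contDiff_iff_contDiffAt]
    intro z
    by_cases hz : z ∈ V
    · exact ((hus z hz).mul (dd_smooth v (hgs z))).sub ((hgs z).mul (dd_smooth v (hus z hz)))
    · exact contDiffAt_const.congr_of_eventuallyEq (hF0 v z (hgV z hz))
  have hFc : ∀ v, HasCompactSupport (F v) := fun v =>
    HasCompactSupport.intro (isCompact_closedBall (0 : Fin m → ℂ) R₀)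
      fun z hz => (hF0 v z (hg0 z (by simpa using hz))).self_of_nhds
  have hFV : ∀ v, ∀ z ∈ V, dd v (F v) z = u z * dd v (dd v g) z - g z * dd v (dd v u) z := by
    intro v z hz
    have d1 := sm_diff (hus z hz)
    have d2 := sm_diff (hgs z)
    have d3 := sm_diff (dd_smooth v (hus z hz))
    have d4 := sm_diff (dd_smooth v (hgs z))
    have h1 : dd v (F v) z = dd v (fun w => u w * dd v g w) z - dd v (fun w => g w * dd v u w) z :=
      dd_sub v _ _ z (d1.fun_mul d4) (d2.fun_mul d3)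
    rw [h1, dd_mul v _ _ z d1 d4, dd_mul v _ _ z d2 d3]
    ring
  have hFn : ∀ v, ∀ z, z ∉ V → dd v (F v) z = 0 := by
    intro v z hz
    rw [dd_congr v (hF0 v z (hgV z hz)), dd_zero]
  have hI : ∀ v, Integrable (dd v (F v)) ∧ ∫ z, dd v (F v) z = 0 := fun v =>
    int_dd v (F v) (hFs v) (hFc v)
  have hIV : ∀ v, ∫ z in V, dd v (F v) z = 0 := by
    intro v
    rw [setIntegral_eq_integral_of_forall_compl_eq_zero (hFn v)]
    exact (hI v).2
  have hlg : Continuous (lp ξ g) := (contDiff_iff_contDiffAt.2 fun z => lp_smooth ξ (hgs z)).continuous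
  have hlg0 : ∀ z, R₀ < ‖z‖ → lp ξ g z = 0 := by
    intro z hz
    rw [lp_congr ξ (hg0 z hz), lp_zero]
  obtain ⟨hi1, -, -⟩ := u_int V hV u (lp ξ g) R₀ B hu.continuousOn hB hlg hlg0
  have hsplit : ∀ z ∈ V, u z * lp ξ g z = (dd ξ (F ξ) z + dd (Complex.I • ξ) (F (Complex.I • ξ)) z)
      + g z * lp ξ u z := by
    intro z hz
    rw [hFV ξ z hz, hFV (Complex.I • ξ) z hz]
    unfold lp
    ring
  have hi2 : IntegrableOn (fun z => dd ξ (F ξ) z + dd (Complex.I • ξ) (F (Complex.I • ξ)) z) V :=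
    ((hI ξ).1.add (hI (Complex.I • ξ)).1).integrableOn
  have hi3 : IntegrableOn (fun z => g z * lp ξ u z) V := by
    have h := hi1.sub hi2
    refine h.congr_fun ?_ hV.measurableSet
    intro z hz
    have := hsplit z hz
    change u z * lp ξ g z - _ = _
    linarith
  rw [setIntegral_congr_fun hV.measurableSet hsplit, integral_add hi2 hi3,
    integral_add (hI ξ).1.integrableOn (hI (Complex.I • ξ)).1.integrableOn, hIV, hIV, zero_add,
    zero_add]
  exact setIntegral_nonneg hV.measurableSet fun z hz => mul_nonneg (hgn z) (hl z hz)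

lemma qq_sq (P : MvPolynomial (Fin m) ℂ) (ξ z : Fin m → ℂ) :
    ‖qq P ξ z‖ ^ 2 ≤ (∑ j, ‖ξ j‖ ^ 2) *
      ∑ j, ‖ev (MvPolynomial.pderiv j P) z‖ ^ 2 / ‖ev P z‖ ^ 2 := by
  unfold qq
  rw [norm_div, div_pow, ← Finset.sum_div, ← mul_div_assoc]
  apply div_le_div_of_nonneg_right _ (sq_nonneg _)
  rw [dP_apply]
  have h1 : ‖∑ j, ev (MvPolynomial.pderiv j P) z * ξ j‖
      ≤ ∑ j, ‖ξ j‖ * ‖ev (MvPolynomial.pderiv j P) z‖ := by
    refine (norm_sum_le _ _).trans (Finset.sum_le_sum fun j _ => ?_)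
    rw [norm_mul, mul_comm]
  calc ‖∑ j, ev (MvPolynomial.pderiv j P) z * ξ j‖ ^ 2
      ≤ (∑ j, ‖ξ j‖ * ‖ev (MvPolynomial.pderiv j P) z‖) ^ 2 :=
        pow_le_pow_left₀ (norm_nonneg _) h1 2
    _ ≤ (∑ j, ‖ξ j‖ ^ 2) * ∑ j, ‖ev (MvPolynomial.pderiv j P) z‖ ^ 2 :=
        Finset.sum_mul_sq_le_sq_mul_sq _ _ _

end Main

theorem hWPS (hLGC : StLGC) : StWPS := by
  intro m P hP u hu hpsh hb φ hφ hφc hφ0 ξ
  set V : Set (Fin m → ℂ) := {z | ev P z ≠ 0} with hVdef
  have hVo : IsOpen V := isOpen_ne_fun (ev_cont P) continuous_const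
  obtain ⟨R₀, hR₀⟩ := hφc.isCompact.isBounded.subset_closedBall (0 : Fin m → ℂ)
  obtain ⟨B, hB⟩ := hb R₀
  have hB' : ∀ z ∈ V, ‖z‖ ≤ R₀ → |u z| ≤ B := fun z hz hz' => hB z hz' hz
  have hφz : ∀ z, R₀ < ‖z‖ → φ =ᶠ[𝓝 z] fun _ => 0 := by
    intro z hz
    have : z ∉ tsupport φ := fun h => by
      have := hR₀ h
      simp only [Metric.mem_closedBall, dist_zero_right] at this
      linarith
    exact notMem_tsupport_iff_eventuallyEq.1 this
  have hus : ∀ z ∈ V, ContDiffAt ℝ ∞ u z := fun z hz => hu.contDiffAt (hVo.mem_nhds hz)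
  have hφs : ∀ z, ContDiffAt ℝ ∞ φ z := fun z => hφ.contDiffAt
  have hlu : ∀ z ∈ V, 0 ≤ lp ξ u z := by
    intro z hz
    have h1 := (hpsh z hz).2 ξ
    rw [hf_hes u z (sm_two (hus z hz)) ξ] at h1
    linarith
  -- bounds for the test function
  have hbd : ∀ H : (Fin m → ℂ) → ℝ, Continuous H → (∀ z, R₀ < ‖z‖ → H z = 0) →
      ∃ M : ℝ, 0 ≤ M ∧ ∀ z, |H z| ≤ M := by
    intro H hH hH0
    obtain ⟨M, hM⟩ := (isCompact_closedBall (0 : Fin m → ℂ) R₀).exists_bound_of_continuousOn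
      hH.continuousOn
    refine ⟨max M 0, le_max_right _ _, fun z => ?_⟩
    by_cases hz : ‖z‖ ≤ R₀
    · exact (hM z (by simpa using hz)).trans (le_max_left _ _)
    · rw [hH0 z (not_le.1 hz), abs_zero]
      exact le_max_right _ _
  have hdφc : ∀ v, Continuous (dd v φ) := fun v =>
    (contDiff_iff_contDiffAt.2 fun z => dd_smooth v (hφs z)).continuous
  have hdφ0 : ∀ v z, R₀ < ‖z‖ → dd v φ z = 0 := fun v z hz => by
    rw [dd_congr v (hφz z hz), dd_zero]
  obtain ⟨M₁, hM₁0, hM₁⟩ := hbd φ hφ.continuous fun z hz => (hφz z hz).self_of_nhds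
  obtain ⟨M₂, hM₂0, hM₂⟩ := hbd (dd ξ φ) (hdφc ξ) (hdφ0 ξ)
  obtain ⟨M₃, hM₃0, hM₃⟩ := hbd (dd (Complex.I • ξ) φ) (hdφc _) (hdφ0 _)
  set M : ℝ := max M₁ (max M₂ M₃) with hMdef
  have hM0 : 0 ≤ M := hM₁0.trans (le_max_left _ _)
  have hM : ∀ z, |φ z| ≤ M ∧ |dd ξ φ z| ≤ M ∧ |dd (Complex.I • ξ) φ z| ≤ M := fun z =>
    ⟨(hM₁ z).trans (le_max_left _ _), (hM₂ z).trans ((le_max_left _ _).trans (le_max_right _ _)),
      (hM₃ z).trans ((le_max_right _ _).trans (le_max_right _ _))⟩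
  obtain ⟨C, hC0, hC'⟩ := st_der
  have hC : ∀ x : ℝ, |deriv Real.smoothTransition x| ≤ C ∧
      |deriv (deriv Real.smoothTransition) x| ≤ C := fun x => ⟨(hC' x).1, (hC' x).2.1⟩
  have hlφ : Continuous (lp ξ φ) :=
    (contDiff_iff_contDiffAt.2 fun z => lp_smooth ξ (hφs z)).continuous
  have hlφ0 : ∀ z, R₀ < ‖z‖ → lp ξ φ z = 0 := fun z hz => by
    rw [lp_congr ξ (hφz z hz), lp_zero]
  -- splitting
  have hTs : ∀ k, 1 ≤ k → ContDiff ℝ ∞ (TH P k) := fun k hk => TH_smooth P k hk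
  have hsp : ∀ k, 1 ≤ k → ∀ z, lp ξ (fun z => φ z * TH P k z) z
      = TH P k z * lp ξ φ z + RR P ξ φ k z := fun k hk z =>
    lp_mul ξ φ (TH P k) z (hφs z) (hTs k hk).contDiffAt
  have hc1 : ∀ k, 1 ≤ k → Continuous (fun z => TH P k z * lp ξ φ z) := fun k hk =>
    (hTs k hk).continuous.mul hlφ
  have hc10 : ∀ k, ∀ z, R₀ < ‖z‖ → TH P k z * lp ξ φ z = 0 := fun k z hz => by
    rw [hlφ0 z hz, mul_zero]
  have hc2 : ∀ k, 1 ≤ k → Continuous (RR P ξ φ k) := by
    intro k hk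
    have h1 : ∀ v, Continuous (dd v (TH P k)) := fun v =>
      (contDiff_iff_contDiffAt.2 fun z => dd_smooth v (hTs k hk).contDiffAt).continuous
    have h2 : Continuous (lp ξ (TH P k)) :=
      (contDiff_iff_contDiffAt.2 fun z => lp_smooth ξ (hTs k hk).contDiffAt).continuous
    exact (continuous_const.mul (((hdφc _).mul (h1 _)).add ((hdφc _).mul (h1 _)))).add
      (hφ.continuous.mul h2)
  have hc20 : ∀ k, ∀ z, R₀ < ‖z‖ → RR P ξ φ k z = 0 := by
    intro k z hz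
    unfold RR
    rw [hdφ0 _ z hz, hdφ0 _ z hz, (hφz z hz).self_of_nhds]
    simp
  have hkey : ∀ k, 1 ≤ k → 0 ≤ (∫ z in V, u z * (TH P k z * lp ξ φ z))
      + ∫ z in V, u z * RR P ξ φ k z := by
    intro k hk
    have h1 := key_ibp V hVo u (fun z => φ z * TH P k z) R₀ B ξ hu hB' (hφ.mul (hTs k hk))
      (fun z hz => by
        filter_upwards [hφz z hz] with w hw
        rw [hw, zero_mul])
      (fun z hz => by
        have hz' : ev P z = 0 := by
          by_contra h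
          exact hz h
        filter_upwards [TH_zero P k hk z hz'] with w hw
        rw [hw, mul_zero])
      (fun z => mul_nonneg (hφ0 z) (TH_nonneg P k z)) hlu
    obtain ⟨i1, -, -⟩ := u_int V hVo u _ R₀ B hu.continuousOn hB' (hc1 k hk) (hc10 k)
    obtain ⟨i2, -, -⟩ := u_int V hVo u _ R₀ B hu.continuousOn hB' (hc2 k hk) (hc20 k)
    rw [← integral_add i1 i2]
    refine h1.trans_eq ?_
    apply setIntegral_congr_fun hVo.measurableSet
    intro z _
    simp only [hsp k hk z]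
    ring
  -- first limit
  have hlim1 : Tendsto (fun k => ∫ z in V, u z * (TH P k z * lp ξ φ z)) atTop
      (𝓝 (∫ z in V, u z * lp ξ φ z)) := by
    obtain ⟨-, i2, -⟩ := u_int V hVo u _ R₀ B hu.continuousOn hB' hlφ hlφ0
    apply tendsto_integral_filter_of_dominated_convergence (fun z => |B| * |lp ξ φ z|)
    · filter_upwards [eventually_ge_atTop 1] with k hk
      exact (u_int V hVo u _ R₀ B hu.continuousOn hB' (hc1 k hk) (hc10 k)).1.aestronglyMeasurable
    · filter_upwards [eventually_ge_atTop 1] with k hk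
      refine (ae_restrict_iff' hVo.measurableSet).2 (Eventually.of_forall fun z hz => ?_)
      refine ((u_int V hVo u _ R₀ B hu.continuousOn hB' (hc1 k hk) (hc10 k)).2.2 z hz).trans ?_
      apply mul_le_mul_of_nonneg_left _ (abs_nonneg _)
      rw [abs_mul, abs_of_nonneg (TH_nonneg P k z)]
      exact mul_le_of_le_one_left (abs_nonneg _) (TH_le_one P k z)
    · exact i2.integrableOn
    · refine (ae_restrict_iff' hVo.measurableSet).2 (Eventually.of_forall fun z hz => ?_)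
      have h := ((TH_tendsto P z hz).mul_const (lp ξ φ z)).const_mul (u z)
      rwa [one_mul] at h
  -- second limit
  choose b hbj using fun j : Fin m => hLGC m P j R₀
  have hbound : ∀ k : ℕ, 1 ≤ k → ‖∫ z in V, u z * RR P ξ φ k z‖
      ≤ (|B| * (M * C) * 2 * (volume (Metric.closedBall (0 : Fin m → ℂ) R₀)).toReal
        + |B| * (M * C) * 3 * (∑ j, ‖ξ j‖ ^ 2) * ∑ j, |b j|) / k := by
    intro k hk
    have hkR : (1 : ℝ) ≤ k := by exact_mod_cast hk
    have hk0 : (0 : ℝ) < k := by linarith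
    set ε : ℝ := Real.exp (-(k : ℝ) ^ 2) with hε
    have hε0 : 0 < ε := Real.exp_pos _
    have hε2 : ε < 1 / 2 := by
      have h1 : Real.exp (-(k : ℝ) ^ 2) ≤ Real.exp (-1) := by
        apply Real.exp_le_exp.2
        nlinarith
      have h2 : Real.exp (-1) < 1 / 2 := by
        rw [Real.exp_neg, one_div]
        apply inv_strictAnti₀ (by norm_num)
        have := Real.add_one_lt_exp (one_ne_zero : (1 : ℝ) ≠ 0)
        linarith
      linarith
    have hlog : |Real.log ε| = (k : ℝ) ^ 2 := by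
      rw [hε, Real.log_exp, abs_neg, abs_of_nonneg (sq_nonneg _)]
    set Tk : Set (Fin m → ℂ) := {z | ‖z‖ ≤ R₀ ∧ ε ^ 2 ≤ ‖ev P z‖ ∧ ‖ev P z‖ ≤ ε} with hTk
    have hTm : MeasurableSet Tk := by
      apply IsClosed.measurableSet
      exact (isClosed_le continuous_norm continuous_const).inter
        ((isClosed_le continuous_const (ev_cont P).norm).inter
          (isClosed_le (ev_cont P).norm continuous_const))
    set A₁ : ℝ := |B| * (M * C) * 2 with hA₁
    set A₂ : ℝ := |B| * (M * C) * 3 * (∑ j, ‖ξ j‖ ^ 2) with hA₂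
    have hA₁0 : 0 ≤ A₁ := by positivity
    have hA₂0 : 0 ≤ A₂ := by
      have : 0 ≤ ∑ j, ‖ξ j‖ ^ 2 := Finset.sum_nonneg fun j _ => sq_nonneg _
      positivity
    set w : Fin m → (Fin m → ℂ) → ℝ := fun j z =>
      ‖ev (MvPolynomial.pderiv j P) z‖ ^ 2 / ‖ev P z‖ ^ 2 with hw
    have hw0 : ∀ j z, 0 ≤ w j z := fun j z => by simp only [hw]; positivity
    have hwm : ∀ j, Measurable (fun z => ENNReal.ofReal (w j z)) := by
      intro j
      apply Measurable.ennreal_ofReal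
      exact ((ev_cont _).norm.pow 2).measurable.div ((ev_cont _).norm.pow 2).measurable
    have hpt : ∀ z ∈ V, ENNReal.ofReal ‖u z * RR P ξ φ k z‖ ≤ Tk.indicator
        (fun z => ENNReal.ofReal (A₁ / k) + ∑ j, ENNReal.ofReal (A₂ / (k : ℝ) ^ 3) *
          ENNReal.ofReal (w j z)) z := by
      intro z hz
      by_cases hzT : z ∈ Tk
      · rw [Set.indicator_of_mem hzT]
        have e1 : ENNReal.ofReal (A₁ / k) + ∑ j, ENNReal.ofReal (A₂ / (k : ℝ) ^ 3) *
            ENNReal.ofReal (w j z)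
            = ENNReal.ofReal (A₁ / k + A₂ / (k : ℝ) ^ 3 * ∑ j, w j z) := by
          rw [ENNReal.ofReal_add (by positivity) (mul_nonneg (by positivity)
            (Finset.sum_nonneg fun j _ => hw0 j z)), ← Finset.mul_sum,
            ENNReal.ofReal_mul (by positivity),
            ENNReal.ofReal_sum_of_nonneg (fun j _ => hw0 j z)]
        rw [e1]
        apply ENNReal.ofReal_le_ofReal
        rw [Real.norm_eq_abs, abs_mul]
        have h1 := RR_bound P ξ φ C M hC0 hM0 hC hM k hk z hz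
        have h2 : |u z| ≤ |B| := (hB z hzT.1 hz).trans (le_abs_self _)
        have h3 := qq_sq P ξ z
        calc |u z| * |RR P ξ φ k z|
            ≤ |B| * (M * C * (2 / k + 3 * ‖qq P ξ z‖ ^ 2 / (k : ℝ) ^ 3)) :=
              mul_le_mul h2 h1 (abs_nonneg _) (abs_nonneg _)
          _ ≤ |B| * (M * C * (2 / k + 3 * ((∑ j, ‖ξ j‖ ^ 2) * ∑ j, w j z) / (k : ℝ) ^ 3)) := by
              gcongr
          _ = A₁ / k + A₂ / (k : ℝ) ^ 3 * ∑ j, w j z := by
              rw [hA₁, hA₂]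
              field_simp
      · have h0 : RR P ξ φ k z = 0 := by
          by_cases hzR : ‖z‖ ≤ R₀
          · apply RR_zero P ξ φ k hk z hz
            intro hc
            exact hzT ⟨hzR, hc⟩
          · exact hc20 k z (not_le.1 hzR)
        rw [h0, mul_zero, norm_zero, ENNReal.ofReal_zero]
        exact zero_le
    have hint : ∫⁻ z in V, ENNReal.ofReal ‖u z * RR P ξ φ k z‖
        ≤ ENNReal.ofReal ((A₁ * (volume (Metric.closedBall (0 : Fin m → ℂ) R₀)).toReal
          + A₂ * ∑ j, |b j|) / k) := by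
      calc ∫⁻ z in V, ENNReal.ofReal ‖u z * RR P ξ φ k z‖
          ≤ ∫⁻ z in V, Tk.indicator
            (fun z => ENNReal.ofReal (A₁ / k) + ∑ j, ENNReal.ofReal (A₂ / (k : ℝ) ^ 3) *
              ENNReal.ofReal (w j z)) z := setLIntegral_mono' hVo.measurableSet hpt
        _ ≤ ∫⁻ z, Tk.indicator
            (fun z => ENNReal.ofReal (A₁ / k) + ∑ j, ENNReal.ofReal (A₂ / (k : ℝ) ^ 3) *
              ENNReal.ofReal (w j z)) z := setLIntegral_le_lintegral _ _
        _ = ∫⁻ z in Tk, (ENNReal.ofReal (A₁ / k) + ∑ j, ENNReal.ofReal (A₂ / (k : ℝ) ^ 3) *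
              ENNReal.ofReal (w j z)) := lintegral_indicator hTm _
        _ = ENNReal.ofReal (A₁ / k) * volume Tk + ∑ j, ENNReal.ofReal (A₂ / (k : ℝ) ^ 3) *
          ∫⁻ z in Tk, ENNReal.ofReal (w j z) := by
            rw [lintegral_add_left measurable_const, setLIntegral_const,
              lintegral_finset_sum _ (fun j _ => (hwm j).const_mul _)]
            congr 1
            apply Finset.sum_congr rfl
            intro j _
            rw [lintegral_const_mul _ (hwm j)]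
        _ ≤ ENNReal.ofReal (A₁ / k) *
            ENNReal.ofReal (volume (Metric.closedBall (0 : Fin m → ℂ) R₀)).toReal
            + ∑ j, ENNReal.ofReal (A₂ / (k : ℝ) ^ 3) * ENNReal.ofReal (|b j| * (k : ℝ) ^ 2) := by
            apply add_le_add
            · apply mul_le_mul_right
              rw [ENNReal.ofReal_toReal measure_closedBall_lt_top.ne]
              apply measure_mono
              intro z hz
              simpa using hz.1
            · apply Finset.sum_le_sum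
              intro j _
              apply mul_le_mul_right
              refine (hbj j ε hε0 hε2).trans ?_
              apply ENNReal.ofReal_le_ofReal
              rw [hlog]
              exact mul_le_mul_of_nonneg_right (le_abs_self _) (sq_nonneg _)
        _ = ENNReal.ofReal ((A₁ * (volume (Metric.closedBall (0 : Fin m → ℂ) R₀)).toReal
          + A₂ * ∑ j, |b j|) / k) := by
            rw [← Finset.mul_sum, ← ENNReal.ofReal_sum_of_nonneg (fun j _ => by positivity),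
              ← ENNReal.ofReal_mul (by positivity), ← ENNReal.ofReal_mul (by positivity),
              ← ENNReal.ofReal_add (by positivity) (mul_nonneg (by positivity)
                (Finset.sum_nonneg fun j _ => by positivity)), ← Finset.sum_mul]
            congr 1
            field_simp
    have hfin : ‖∫ z in V, u z * RR P ξ φ k z‖
        ≤ ENNReal.toReal (∫⁻ z in V, ENNReal.ofReal ‖u z * RR P ξ φ k z‖) :=
      norm_integral_le_lintegral_norm _
    refine hfin.trans ?_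
    refine ENNReal.toReal_le_of_le_ofReal ?_ hint
    have : 0 ≤ ∑ j, |b j| := Finset.sum_nonneg fun j _ => abs_nonneg _
    positivity
  have hlim2 : Tendsto (fun k => ∫ z in V, u z * RR P ξ φ k z) atTop (𝓝 0) := by
    refine squeeze_zero_norm' ?_ (tendsto_const_div_atTop_nhds_zero_nat
      (|B| * (M * C) * 2 * (volume (Metric.closedBall (0 : Fin m → ℂ) R₀)).toReal
        + |B| * (M * C) * 3 * (∑ j, ‖ξ j‖ ^ 2) * ∑ j, |b j|))
    filter_upwards [eventually_ge_atTop 1] with k hk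
    exact hbound k hk
  have hfinal : 0 ≤ ∫ z in V, u z * lp ξ φ z := by
    have h := hlim1.add hlim2
    rw [add_zero] at h
    refine ge_of_tendsto h ?_
    filter_upwards [eventually_ge_atTop 1] with k hk
    exact hkey k hk
  have hconv : ∫ z in V, u z * hf (hes φ z) ξ = (1 / 4) * ∫ z in V, u z * lp ξ φ z := by
    rw [← integral_const_mul]
    congr 1
    funext z
    rw [hf_hes φ z (sm_two (hφs z)) ξ]
    ring
  rw [hconv]
  positivity

end Pool.Agent.Helper80.KP
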