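import Pool.Agent.Helper68.KP.StS

/-!
# Project KP (MP_26be5b_ag), module ORT: orthonormalization
-/

set_option autoImplicit false

namespace Pool.Agent.Helper80.KP

open Pool.Agent.Helper52.KP Pool.Agent.Helper68.KP Filter Topology Matrix
open scoped ComplexOrder

theorem hORT : StORT := by
  intro N p σ V hσ hV
  set X := σ * V with hX
  have hinj : Function.Injective X.mulVec := by
    intro v w hvw
    have h1 : σ *ᵥ (V *ᵥ v) = σ *ᵥ (V *ᵥ w) := by
      rw [mulVec_mulVec, mulVec_mulVec]; exact hvw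
    have h2 : V *ᵥ v = V *ᵥ w := mulVec_injective_of_isUnit hσ h1
    have h3 : Vᴴ *ᵥ (V *ᵥ v) = Vᴴ *ᵥ (V *ᵥ w) := by rw [h2]
    rw [mulVec_mulVec, mulVec_mulVec, hV, one_mulVec, one_mulVec] at h3
    exact h3
  have hG : (Xᴴ * X).PosDef := Matrix.PosDef.conjTranspose_mul_self X hinj
  have hH := hG.isHermitian
  set U : Matrix (Fin p) (Fin p) ℂ := (hH.eigenvectorUnitary : Matrix (Fin p) (Fin p) ℂ) with hU
  set g := hH.eigenvalues with hg
  have hgp : ∀ i, 0 < g i := fun i => hG.eigenvalues_pos i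
  have hUU : Uᴴ * U = 1 := Unitary.coe_star_mul_self hH.eigenvectorUnitary
  have hUU' : U * Uᴴ = 1 := Unitary.coe_mul_star_self hH.eigenvectorUnitary
  have hsp : Xᴴ * X = U * diagonal (fun i => (g i : ℂ)) * Uᴴ := by
    have h := hH.spectral_theorem
    rw [Unitary.conjStarAlgAut_apply] at h
    exact h
  have hsp2 : Uᴴ * (Xᴴ * X) * U = diagonal (fun i => (g i : ℂ)) := by
    rw [hsp]
    calc Uᴴ * (U * diagonal (fun i => (g i : ℂ)) * Uᴴ) * U
        = (Uᴴ * U) * diagonal (fun i => (g i : ℂ)) * (Uᴴ * U) := by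
          simp only [Matrix.mul_assoc]
      _ = _ := by rw [hUU, Matrix.one_mul, Matrix.mul_one]
  have hsq : ∀ i, (Real.sqrt (g i) : ℂ) * (Real.sqrt (g i) : ℂ) = (g i : ℂ) := by
    intro i
    rw [← Complex.ofReal_mul, Real.mul_self_sqrt (hgp i).le]
  have hs0 : ∀ i, (Real.sqrt (g i) : ℂ) ≠ 0 := by
    intro i
    exact Complex.ofReal_ne_zero.2 (Real.sqrt_pos.2 (hgp i)).ne'
  set D : Matrix (Fin p) (Fin p) ℂ := diagonal (fun i => (Real.sqrt (g i) : ℂ)) with hD
  set D' : Matrix (Fin p) (Fin p) ℂ := diagonal (fun i => (Real.sqrt (g i) : ℂ)⁻¹) with hD'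
  have hDD : D' * D = 1 := by
    rw [hD, hD', diagonal_mul_diagonal]
    simp [hs0]
  have hDD' : D * D' = 1 := by
    rw [hD, hD', diagonal_mul_diagonal]
    simp [hs0]
  have hDH : D'ᴴ = D' := by
    rw [hD', diagonal_conjTranspose]
    congr 1
    funext i
    simp
  refine ⟨X * U * D', D * Uᴴ, ?_, ?_, ?_⟩
  · calc (X * U * D')ᴴ * (X * U * D') = D' * (Uᴴ * (Xᴴ * X) * U) * D' := by
          rw [conjTranspose_mul, conjTranspose_mul, hDH]
          simp only [Matrix.mul_assoc]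
      _ = 1 := by
          rw [hsp2, hD', diagonal_mul_diagonal, diagonal_mul_diagonal, ← diagonal_one]
          congr 1
          funext i
          rw [← hsq i]
          field_simp [hs0 i]
  · have h1 : IsUnit D := ⟨⟨D, D', hDD', hDD⟩, rfl⟩
    have h2 : IsUnit Uᴴ := ⟨⟨Uᴴ, U, hUU, hUU'⟩, rfl⟩
    exact h1.mul h2
  · calc X = X * (U * (D' * D) * Uᴴ) := by rw [hDD, Matrix.mul_one, hUU', Matrix.mul_one]
      _ = X * U * D' * (D * Uᴴ) := by simp only [Matrix.mul_assoc]

end Pool.Agent.Helper80.KP
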