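import Pool.Agent.Helper93.KP.St

/-!
# Project KP, module RST: product of the two divisor-type sums
-/

set_option autoImplicit false

namespace Pool.Agent.Helper80.KP

open Finset Filter Topology Pool.Agent.Helper93.KP
open Pool.Agent.Helper9.TW (Rg)

private theorem not_both {k n p : ℕ} (hk : 1 ≤ k) (hkn : k < n) (hp : p.Prime) (h1 : p ∣ vk n k)
    (h2 : p ∣ k) : False := by
  have h3 : p ∣ vk n k + 1 := by
    have h4 : vk n k + 1 = k * (n - k) := by
      unfold vk
      have h5 : 1 ≤ k * (n - k) := Nat.mul_pos hk (by omega)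
      omega
    rw [h4]
    exact h2.mul_right _
  have h5 : p ∣ 1 := (Nat.dvd_add_right h1).mp h3
  exact hp.one_lt.ne' (Nat.dvd_one.mp h5)

private theorem cd_one {a k k' n m l x y : ℕ} {z : ℝ} (hk : 1 ≤ k) (hkn : k < n)
    (hk' : 1 ≤ k') (hkn' : k' < n) (hn : n ∈ NN a) (hbd : n ∉ BD a z k k')
    (hx : Rg a z x) (hy : Rg a z y) (h1 : m * l ∣ vk n k) (h2 : x * y ∣ vk n k') :
    cd k k' m l x y = 1 := by
  classical
  have hb : ∀ p : ℕ, p.Prime → z ≤ (p : ℝ) → ¬ (p ^ 2 ∣ vk n k ∨ p ^ 2 ∣ vk n k' ∨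
    (p ∣ vk n k ∧ p ∣ vk n k') ∨ (p ∣ k ∧ p ∣ vk n k') ∨ (p ∣ k' ∧ p ∣ vk n k)) := by
    intro p hp hz hcon
    apply hbd
    unfold BD
    rw [mem_filter]
    exact ⟨hn, p, hp, hz, hcon⟩
  unfold cd
  rw [if_pos]
  refine ⟨?_, ?_, ?_⟩
  · rw [Nat.coprime_iff_gcd_eq_one]
    by_contra hne
    obtain ⟨p, hp, hpd⟩ := Nat.exists_prime_and_dvd hne
    exact not_both hk hkn hp ((hpd.trans (Nat.gcd_dvd_left _ _)).trans h1)
      (hpd.trans (Nat.gcd_dvd_right _ _))
  · have hcop : Nat.Coprime x y := by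
      rw [Nat.coprime_iff_gcd_eq_one]
      by_contra hne
      obtain ⟨p, hp, hpd⟩ := Nat.exists_prime_and_dvd hne
      have hpx : p ∣ x := hpd.trans (Nat.gcd_dvd_left _ _)
      have hpy : p ∣ y := hpd.trans (Nat.gcd_dvd_right _ _)
      have hz := (hx.2 p hp hpx).1
      apply hb p hp hz
      right; left
      rw [pow_two]
      exact (Nat.mul_dvd_mul hpx hpy).trans h2
    rw [Nat.squarefree_mul hcop]
    exact ⟨hx.1, hy.1⟩
  · rw [Nat.coprime_iff_gcd_eq_one]
    by_contra hne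
    obtain ⟨p, hp, hpd⟩ := Nat.exists_prime_and_dvd hne
    have hpxy : p ∣ x * y := hpd.trans (Nat.gcd_dvd_left _ _)
    have hpr : p ∣ k * k' * (m * l) := hpd.trans (Nat.gcd_dvd_right _ _)
    have hz : z ≤ (p : ℝ) := by
      rcases (Nat.Prime.dvd_mul hp).mp hpxy with h | h
      · exact (hx.2 p hp h).1
      · exact (hy.2 p hp h).1
    have hv : p ∣ vk n k' := hpxy.trans h2
    rcases (Nat.Prime.dvd_mul hp).mp hpr with h | h
    · rcases (Nat.Prime.dvd_mul hp).mp h with h' | h'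
      · exact hb p hp hz (Or.inr (Or.inr (Or.inr (Or.inl ⟨h', hv⟩))))
      · exact not_both hk' hkn' hp hv h'
    · exact hb p hp hz (Or.inr (Or.inr (Or.inl ⟨h.trans h1, hv⟩)))

/-- RST. -/
theorem hRST : StRST := by
  intro a k k' n T z M N B al be ha hk hka hk' hka' hn hbd hsup
  obtain ⟨_, hal, hbe⟩ := hsup
  have hna : a < n := by
    have h1 : a ^ 2 < n := by
      unfold NN at hn
      exact (mem_Ioc.mp hn).1
    nlinarith
  have hkn : k < n := by omega
  have hkn' : k' < n := by omega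
  have key : ∀ t s m l x y : ℕ,
      (al t m * be t l * (if m * l ∣ vk n k then (1 : ℝ) else 0)) *
        (al s x * be s y * (if x * y ∣ vk n k' then (1 : ℝ) else 0)) =
      cd k k' m l x y * (al t m * be t l * al s x * be s y) *
        (if m * l ∣ vk n k ∧ x * y ∣ vk n k' then (1 : ℝ) else 0) := by
    intro t s m l x y
    by_cases hax : al s x = 0
    · rw [hax]; ring
    by_cases hby : be s y = 0
    · rw [hby]; ring
    by_cases h1 : m * l ∣ vk n k
    · by_cases h2 : x * y ∣ vk n k'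
      · rw [if_pos h1, if_pos h2, if_pos ⟨h1, h2⟩,
          cd_one hk hkn hk' hkn' hn hbd (hal s x hax) (hbe s y hby) h1 h2]
        ring
      · have h3 : ¬ (m * l ∣ vk n k ∧ x * y ∣ vk n k') := fun h => h2 h.2
        rw [if_neg h2, if_neg h3]
        ring
    · have h3 : ¬ (m * l ∣ vk n k ∧ x * y ∣ vk n k') := fun h => h1 h.1
      rw [if_neg h1, if_neg h3]
      ring
  unfold PP PC
  rw [sum_mul_sum]
  refine sum_congr rfl fun t _ => sum_congr rfl fun s _ => ?_
  rw [sum_mul]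
  refine sum_congr rfl fun m _ => ?_
  rw [sum_mul]
  refine sum_congr rfl fun l _ => ?_
  rw [mul_sum]
  refine sum_congr rfl fun x _ => ?_
  rw [mul_sum]
  refine sum_congr rfl fun y _ => ?_
  exact key t s m l x y

end Pool.Agent.Helper80.KP
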